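import Mathlib
import Pool.Agent.J4H38.Mcf3

/-!
# The rank part of the Beilinson–Bloch conjecture for diagonal cubic curves, threefolds and fivefolds
# over number fields of degree `2 * 3 ^ N`, `N` arbitrary

`K = ℚ(√-3)` is the field of the third roots of unity.  For `c = 0, 1, 2`, `b_0, ..., b_{2c+2} ∈ 𝓞 K` and
`d_1, ..., d_N ∈ 𝓞 K` let `F = K(∛d_1, ..., ∛d_N)` and let `X_b` be the smooth cubic hypersurface
`b_0 x_0³ + … + b_{2c+2} x_{2c+2}³ = 0` of dimension `n = 2 c + 1`, over the number field `F`.  All the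
`2 c + 3 + N` parameters are INDEPENDENT of each other.  For a set `T` of `c` indices put
`δ_T = ∏ b i * ∏_{i ∈ T} b i`, and let `E_δ` be the curve `y² + δ y = x³`.  Then `H^n(X_b)` is the direct
sum of the `H^1(E_{δ_T})(-c)` (`1`, `5` and `21` curves for `n = 1, 3, 5`), the intermediate Jacobian of
`X_b` over `F` is isogenous to the product of the `E_{δ_T}`, and over `F` its `L`-function is the product
of those of the `3 ^ N * (2c+3 choose c)` curves `E_{δ_T d^t}` over `K`, where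
`d^t = d_1^{t_1} ... d_N^{t_N}`, `0 ≤ t_k ≤ 2`.

The family: the `b_i` and the `d_k` are squarefree and congruent to third roots of unity modulo `3`, no
`δ_T d^t` is a unit times a cube or in the exceptional class (`1` modulo `3`, with norm `1` modulo `9`;
this is one of the nine classes of units modulo cubes and the last step of the filtration at `√-3`), and
for `t ≠ 0` no `d^t` is a unit times a cube, so that `[F : K] = 3 ^ N`.

* For all the members of the family the functions `L(H^n(X_b / F), s)` (without the Euler factors at the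
  places dividing `3 ∏ b i ∏ d k`) are entire.
* If for all `T` and `t` the group `E_{δ_T d^t}(K)` is finite and `Ш(E_{δ_T d^t} / K)[3^∞] = 0`, then
  `L(H^n(X_b / F), (n + 1) / 2) ≠ 0`, all the groups `E_{δ_T}(F)` are finite, and
  `Ш(E_{δ_T} / F)[3^∞]` is killed by `3 ^ N`.
* This happens for the proportion `p ^ (3^N (2c+3 choose c))` of the members of the family, where
  `p = ∏_{i ≥ 0} (1 - 3^{-(2 i + 1)}) = 0.6390...`, and for a positive proportion of ALL the pairs
  `(b, d)` of tuples of elements of `𝓞 K`, ordered by the maximum of the norms.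
* The `3^N (2c+3 choose c)` events are asymptotically independent: for every set `𝒯` of pairs `(T, t)` the
  proportion of the `(b, d)` for which the assertion holds for all the `(T, t) ∈ 𝒯` is `p ^ #𝒯`; and this
  remains true under all the conditions on the classes of the `b_i` and `d_k` modulo `3` and of their
  norms modulo `9`.

The `L`-function is given by the numbers of points: for a place `v` of `F` not dividing
`3 ∏ b i ∏ d k` the eigenvalues `α` of the Frobenius on `H^n(X_b)` (`2`, `10` and `42` for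
`n = 1, 3, 5`) are determined by

  `#X_b(k') = 1 + q' + ... + q'^n - ∑ α^r`

for all the finite extensions `k'` of the residue field of `v`, `q' = #k'`, `r` the degree of `k'`.

Relation to the conjecture (not formalized): the group of the homologically trivial cycles of
codimension `i` on `X_b` over `F`, tensored with `ℚ`, is `J(F) ⊗ ℚ = ⨁ E_{δ_T}(F) ⊗ ℚ` for `i = c + 1`,
and `0` for all the other `i` (Murre, Bloch and Murre, Bloch and Srinivas for threefolds; Collino,
Paranjape for fivefolds); the missing Euler factors are finite and not zero at `s = (n + 1) / 2`.  So, for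
these `(b, d)`, `rank CH^m_hom(X_b) = ord_{s = m} L(H^{2 m - 1}(X_b), s)` (both are zero) for all `m`.
The case `N = 0` is `SquarefreeDiagonalCubics`.

The proof: the joint distribution of the kernels of several Laplacian matrices over `𝔽_3` built from the
cubic residue symbols of the prime factors of all the parameters (`Pool/Agent/J4H38`: factorial moments
of the joint kernel, boxes, large sieve), the splitting of the primes in `F`, and the sums over the
twists.
-/

set_option autoImplicit false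

namespace Pool.Agent.Results.MP_b8021b_nt.MulticubicFieldsDiagonalCubics

open NumberField IsDedekindDomain WeierstrassCurve
open Pool.Agent.TH841.NF.D (Sha)
open scoped Classical

/-- The curve `E_D : y² + D y = x³`. -/
def curve {F : Type} [Field F] (D : F) : WeierstrassCurve F := ⟨0, 0, D, 0, 0⟩

/-- The solutions, not all zero, of `∑ a i x i ^ 3 = 0` in the field `k`. -/
def solutions {m : ℕ} {k : Type} [Field k] (a : Fin m → k) : Set (Fin m → k) :=
  {x | x ≠ 0 ∧ ∑ i, a i * x i ^ 3 = 0}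

/-- `δ_T = ∏ b i * ∏_{i ∈ T} b i` -/
def delta {R : Type} [CommRing R] {m : ℕ} (b : Fin m → R) (T : Finset (Fin m)) : R :=
  (∏ i, b i) * ∏ i ∈ T, b i

section LFunction
variable {F : Type} [Field F] [NumberField F]

/-- `A` is the multiset of the eigenvalues of the Frobenius at `v` on `H^n(X_b)`, for the hypersurface
`X_b : ∑ b i x i ^ 3 = 0` of dimension `n = 2 c + 1` over `F`: for every extension `k` of degree `r` of
the residue field of `v` (`f` is the reduction), with `q'` elements, the equation has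
`(q' - 1) (1 + q' + ... + q'^n - ∑ α^r)` nonzero solutions in `k`. -/
def IsFrobenius {c : ℕ} (b : Fin (2 * c + 3) → 𝓞 F) (v : HeightOneSpectrum (𝓞 F))
    (A : Multiset ℂ) : Prop :=
  ∀ (k : Type) [Field k] [Finite k] (f : 𝓞 F →+* k) (r : ℕ), RingHom.ker f = v.asIdeal →
    Nat.card k = Ideal.absNorm v.asIdeal ^ r →
    ((solutions fun i => f (b i)).ncard : ℂ) = (Nat.card k - 1) *
      (∑ i ∈ Finset.range (2 * c + 2), (Nat.card k : ℂ) ^ i - (A.map (fun α => α ^ r)).sum)

/-- `L` is entire and, for `Re s > n / 2 + 1`, equal to the Euler product of `H^n(X_b / F)` over the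
places `v` of `F` that do not divide `M`; `X_b : ∑ b i x i ^ 3 = 0` is of dimension `n = 2 c + 1`, and
`A v` is the multiset of the eigenvalues of the Frobenius at `v`. -/
def IsPartialLFunction {c : ℕ} (b : Fin (2 * c + 3) → 𝓞 F) (M : 𝓞 F) (L : ℂ → ℂ) : Prop :=
  Differentiable ℂ L ∧
  ∃ A : HeightOneSpectrum (𝓞 F) → Multiset ℂ,
    (∀ v, M ∉ v.asIdeal → IsFrobenius b v (A v)) ∧
    ∀ s : ℂ, (2 * c + 1 : ℝ) / 2 + 1 < s.re →
      HasProd (fun v : {v : HeightOneSpectrum (𝓞 F) // M ∉ v.asIdeal} => ((A v.1).map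
        (fun α => (1 - α * (Ideal.absNorm v.1.asIdeal : ℂ) ^ (-s))⁻¹)).prod) (L s)

/-- For the hypersurface `X_b : ∑ b i x i ^ 3 = 0` of dimension `n = 2 c + 1` over `F`: all the groups
`E_{δ_T}(F)`, `T` a set of `c` indices, are finite, and `L(H^n(X_b / F), s)`, without the factors at the
places dividing `M`, is entire and not zero at `s = (n + 1) / 2`. -/
def RankZero {c : ℕ} (b : Fin (2 * c + 3) → 𝓞 F) (M : 𝓞 F) : Prop :=
  (∀ T : Finset (Fin (2 * c + 3)), T.card = c →
    Finite (curve ((delta b T : 𝓞 F) : F)).toAffine.Point) ∧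
  ∃ L : ℂ → ℂ, IsPartialLFunction b M L ∧ L (c + 1) ≠ 0

end LFunction

variable {K : Type} [Field K] [NumberField K]

/-- Squarefree and congruent to a third root of unity modulo `3`. -/
def Admissible (D : 𝓞 K) : Prop := Squarefree D ∧ ∃ ω : 𝓞 K, ω ^ 3 = 1 ∧ (3 : 𝓞 K) ∣ D - ω

/-- The exceptional class: `D` is `1` modulo `3` and its norm is `1` modulo `9`. -/
def Exceptional (D : 𝓞 K) : Prop := (3 : 𝓞 K) ∣ D - 1 ∧ (9 : ℤ) ∣ Algebra.norm ℤ D - 1

/-- A unit times a cube. -/
def UnitTimesCube (D : 𝓞 K) : Prop := ∃ u z : 𝓞 K, IsUnit u ∧ D = u * z ^ 3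

/-- `d^t = ∏ d k ^ t k` -/
def power {N : ℕ} (d : Fin N → 𝓞 K) (t : Fin N → Fin 3) : 𝓞 K := ∏ k, d k ^ (t k : ℕ)

/-- The `b i` and the `d k` are squarefree and congruent to third roots of unity modulo `3`, no
`δ_T d^t`, `T` a set of `c` indices, is exceptional or a unit times a cube, and no `d^t`, `t ≠ 0`, is a
unit times a cube. -/
def InFamily {c N : ℕ} (b : Fin (2 * c + 3) → 𝓞 K) (d : Fin N → 𝓞 K) : Prop :=
  (∀ i, Admissible (b i)) ∧ (∀ k, Admissible (d k)) ∧
  (∀ T : Finset (Fin (2 * c + 3)), T.card = c → ∀ t : Fin N → Fin 3,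
    ¬ Exceptional (delta b T * power d t) ∧ ¬ UnitTimesCube (delta b T * power d t)) ∧
  ∀ t : Fin N → Fin 3, t ≠ 0 → ¬ UnitTimesCube (power d t)

/-- `P b d` depends only on the `b i` and the `d k` modulo `3` and on their norms modulo `9`. -/
def IsClassCondition {c N : ℕ} (P : (Fin (2 * c + 3) → 𝓞 K) → (Fin N → 𝓞 K) → Prop) : Prop :=
  ∀ (b b' : Fin (2 * c + 3) → 𝓞 K) (d d' : Fin N → 𝓞 K),
    (∀ i, (3 : 𝓞 K) ∣ b i - b' i ∧ (9 : ℤ) ∣ Algebra.norm ℤ (b i) - Algebra.norm ℤ (b' i)) →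
    (∀ k, (3 : 𝓞 K) ∣ d k - d' k ∧ (9 : ℤ) ∣ Algebra.norm ℤ (d k) - Algebra.norm ℤ (d' k)) →
    P b d → P b' d'

/-- `E_D(K)` is finite and the `3`-primary part of `Ш(E_D / K)` is trivial. -/
def FiniteAndTrivial (D : 𝓞 K) : Prop :=
  Finite (curve (D : K)).toAffine.Point ∧ ∀ (n : ℕ) (x : Sha (curve (D : K))), 3 ^ n • x = 0 → x = 0

/-- `F = K(∛d_1, ..., ∛d_N)` -/
def IsGenerated {N : ℕ} (d : Fin N → 𝓞 K) (F : Type) [Field F] [Algebra K F] : Prop :=
  ∃ x : Fin N → F, (∀ k, x k ^ 3 = algebraMap K F (d k : K)) ∧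
    IntermediateField.adjoin K (Set.range x) = ⊤

/-- The equation of `X_b` over `F`. -/
def coefficients {c : ℕ} (b : Fin (2 * c + 3) → 𝓞 K) (F : Type) [Field F] [NumberField F] [Algebra K F] :
    Fin (2 * c + 3) → 𝓞 F := fun i => algebraMap (𝓞 K) (𝓞 F) (b i)

/-- `3 ∏ b i ∏ d k` in `F`. -/
def level {c N : ℕ} (b : Fin (2 * c + 3) → 𝓞 K) (d : Fin N → 𝓞 K) (F : Type) [Field F]
    [NumberField F] [Algebra K F] : 𝓞 F :=
  algebraMap (𝓞 K) (𝓞 F) (3 * (∏ i, b i) * ∏ k, d k)

/-- For `F = K(∛d_1, ..., ∛d_N)`: all the groups `E_{δ_T}(F)` are finite, and `L(H^n(X_b / F), s)` is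
entire and not zero at `s = (n + 1) / 2`. -/
def RankZeroOver {c N : ℕ} (b : Fin (2 * c + 3) → 𝓞 K) (d : Fin N → 𝓞 K) : Prop :=
  ∀ (F : Type) [Field F] [NumberField F] [Algebra K F], IsGenerated d F →
    RankZero (coefficients b F) (level b d F)

theorem result (K : Type) [Field K] [NumberField K] [IsCyclotomicExtension {3} ℚ K]
    (c : ℕ) (hc : c ≤ 2) (N : ℕ) (hN : 1 ≤ N) :
    (∃ C : ℝ, 0 < C ∧ ∃ X₀ : ℕ, ∀ X : ℕ, X₀ ≤ X →
      C * ({p : (Fin (2 * c + 3) → 𝓞 K) × (Fin N → 𝓞 K) |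
          (∀ i, Algebra.norm ℤ (p.1 i) ≤ X) ∧ ∀ k, Algebra.norm ℤ (p.2 k) ≤ X}.ncard : ℝ) ≤
        ({p : (Fin (2 * c + 3) → 𝓞 K) × (Fin N → 𝓞 K) |
          ((∀ i, Algebra.norm ℤ (p.1 i) ≤ X) ∧ ∀ k, Algebra.norm ℤ (p.2 k) ≤ X) ∧
          InFamily p.1 p.2 ∧ RankZeroOver p.1 p.2}.ncard : ℝ)) ∧
    (∀ 𝒯 : Finset (Finset (Fin (2 * c + 3)) × (Fin N → Fin 3)), (∀ u ∈ 𝒯, u.1.card = c) →
      ∀ P : (Fin (2 * c + 3) → 𝓞 K) → (Fin N → 𝓞 K) → Prop, IsClassCondition P →
        (∃ b d, InFamily b d ∧ P b d) →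
      Filter.Tendsto (fun X : ℕ =>
        ({p : (Fin (2 * c + 3) → 𝓞 K) × (Fin N → 𝓞 K) |
          ((∀ i, Algebra.norm ℤ (p.1 i) ≤ X) ∧ ∀ k, Algebra.norm ℤ (p.2 k) ≤ X) ∧
          InFamily p.1 p.2 ∧ P p.1 p.2 ∧
          ∀ u ∈ 𝒯, FiniteAndTrivial (delta p.1 u.1 * power p.2 u.2)}.ncard : ℝ) /
        ({p : (Fin (2 * c + 3) → 𝓞 K) × (Fin N → 𝓞 K) |
          ((∀ i, Algebra.norm ℤ (p.1 i) ≤ X) ∧ ∀ k, Algebra.norm ℤ (p.2 k) ≤ X) ∧
          InFamily p.1 p.2 ∧ P p.1 p.2}.ncard : ℝ)) Filter.atTop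
        (nhds ((∏' i : ℕ, (1 - (1 / 3 : ℝ) ^ (2 * i + 1))) ^ 𝒯.card))) ∧
    (0.639 : ℝ) < ∏' i : ℕ, (1 - (1 / 3 : ℝ) ^ (2 * i + 1)) ∧
    ∀ (b : Fin (2 * c + 3) → 𝓞 K) (d : Fin N → 𝓞 K), InFamily b d →
      (∃ (F : Type) (_ : Field F) (_ : NumberField F) (_ : Algebra K F), IsGenerated d F) ∧
      ∀ (F : Type) [Field F] [NumberField F] [Algebra K F], IsGenerated d F →
        Module.finrank K F = 3 ^ N ∧
        (∃ L : ℂ → ℂ, IsPartialLFunction (coefficients b F) (level b d F) L) ∧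
        ((∀ (T : Finset (Fin (2 * c + 3))) (t : Fin N → Fin 3), T.card = c →
            FiniteAndTrivial (delta b T * power d t)) →
          RankZero (coefficients b F) (level b d F) ∧
          ∀ T : Finset (Fin (2 * c + 3)), T.card = c → ∀ (n : ℕ)
            (x : Sha (curve ((delta (coefficients b F) T : 𝓞 F) : F))),
            (3 ^ n : ℕ) • x = 0 → (3 ^ N : ℕ) • x = 0) := by
  obtain ⟨h1, h2, h0⟩ := Pool.Agent.J4H38.Mcf.final2 K c hc N
  obtain ⟨⟨j, hj⟩, -⟩ := Pool.Agent.Y455.CTK.jex K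
  have hmain : ∀ (b : Fin (2 * c + 3) → 𝓞 K) (d : Fin N → 𝓞 K), InFamily b d →
      ∀ (F : Type) [Field F] [NumberField F] [Algebra K F], IsGenerated d F →
        Module.finrank K F = 3 ^ N ∧
        (∃ L : ℂ → ℂ, IsPartialLFunction (coefficients b F) (level b d F) L) ∧
        ((∀ (T : Finset (Fin (2 * c + 3))) (t : Fin N → Fin 3), T.card = c →
            FiniteAndTrivial (delta b T * power d t)) →
          RankZero (coefficients b F) (level b d F) ∧
          ∀ T : Finset (Fin (2 * c + 3)), T.card = c → ∀ (n : ℕ)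
            (x : Sha (curve ((delta (coefficients b F) T : 𝓞 F) : F))),
            (3 ^ n : ℕ) • x = 0 → (3 ^ N : ℕ) • x = 0) := by
    intro b d hbd F _ _ _ hF
    obtain ⟨g1, ⟨L, g2, g3⟩, g4⟩ := Pool.Agent.J4H38.Mcf.overF j hj hc hbd hF
    have e1 : ∀ T : Finset (Fin (2 * c + 3)),
        ((delta (coefficients b F) T : 𝓞 F) : F) = algebraMap K F ((delta b T : 𝓞 K) : K) := by
      intro T
      have e2 : delta (coefficients b F) T = algebraMap (𝓞 K) (𝓞 F) (delta b T) := by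
        unfold delta coefficients
        rw [map_mul, map_prod, map_prod]
      rw [e2]
      rfl
    refine ⟨g1, ⟨L, g2⟩, fun ht => ?_⟩
    have ht' : ∀ T : Finset (Fin (2 * c + 3)), T.card = c → ∀ t : Fin N → ZMod 3,
        Pool.Agent.Y696.CTK.Tri (Pool.Agent.N883.DQ.Dt b T * ∏ k, d k ^ (t k).val) :=
      fun T hT t => ht T t hT
    refine ⟨⟨fun T hT => ?_, L, g2, g3 ht'⟩, fun T hT => ?_⟩
    · rw [e1]
      exact (g4 ht' T hT).1
    · rw [e1]
      exact (g4 ht' T hT).2
  refine ⟨?_, h2, Pool.Agent.N883.FF.hc9.2.2.2.1, fun b d hbd =>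
    ⟨Pool.Agent.J4H38.Mcf.exists_gen d, hmain b d hbd⟩⟩
  obtain ⟨C, hC, X₀, h⟩ := h1
  refine ⟨C, hC, max X₀ 1, fun X hX => (h X ((le_max_left _ _).trans hX)).trans ?_⟩
  refine Nat.cast_le.2 (Set.ncard_le_ncard ?_ ((h0 X ((le_max_right _ _).trans hX)).subset
    fun p hp => hp.1))
  rintro ⟨b, d⟩ ⟨k1, k2, k3⟩
  exact ⟨k1, k2, fun F _ _ _ hF => ((hmain b d k2 F hF).2.2 fun T t hT => k3 T hT t).1⟩

end Pool.Agent.Results.MP_b8021b_nt.MulticubicFieldsDiagonalCubics
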