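import Mathlib
import Pool.Agent.J4H38.Pr3

/-!
# The rank part of the Beilinson–Bloch conjecture for products of a diagonal cubic curve, threefold or
# fivefold with any number of diagonal cubic surfaces, over `K = ℚ(√-3)`

For `c = 0, 1, 2`, `k ≥ 1`, `a_0, ..., a_{2c+2} ∈ 𝓞 K` and `b_{l,0}, ..., b_{l,3} ∈ 𝓞 K`, `l = 1, ..., k`, let

  `X = X_a × S_1 × ... × S_k`,

where `X_a` is the smooth cubic hypersurface `a_0 x_0³ + … + a_{2c+2} x_{2c+2}³ = 0` of dimension `2 c + 1`
and `S_l` is the smooth cubic surface `b_{l,0} x_0³ + … + b_{l,3} x_3³ = 0`.  The dimension of `X` is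
`2 c + 1 + 2 k`, and the `2 c + 3 + 4 k` coefficients are INDEPENDENT of each other.  Let
`E_δ : y² + δ y = x³`.  All the `H^{2i+1}(X)`, `c ≤ i ≤ c + 2 k`, are not zero.  For a set `T` of `c`
indices put `δ_T = ∏ a i * ∏_{i ∈ T} a i`, and for a set `S` of two indices put
`ε_{l,S} = ∏ b_{l,i} * ∏_{i ∈ S} b_{l,i}`.  Then `H^{2i+1}(X)` is the direct sum of the `H^1(E_δ)(-i)`
for the `δ = δ_T ∏_l ε_l`, where for each `l` either `ε_l = 1` (with the degree `j_l = 0`, `1` or `2`: the
classes of a point, a plane section and of `S_l`) or `ε_l = ε_{l,S}` (with `j_l = 1`: the primitive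
cohomology of `S_l`, the sum of six characters of order `3`), and `c + ∑ j_l = i`.

The family: all the coefficients are squarefree and congruent to third roots of unity modulo `3`, and none
of the `7^k (2c+3 choose c)` elements `δ` is a unit times a cube or in the exceptional class (`1` modulo
`3`, with norm `1` modulo `9`).

* For all the members of the family and all `i` the functions `L(H^{2i+1}(X / K), s)` are entire.
* If for all the `δ` the group `E_δ(K)` is finite and `Ш(E_δ / K)[3^∞] = 0`, then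
  `L(H^{2i+1}(X / K), i + 1) ≠ 0` for all `i`.
* This happens for the proportion `p ^ (7^k (2c+3 choose c))` of the members of the family, where
  `p = ∏_{i ≥ 0} (1 - 3^{-(2 i + 1)}) = 0.6390...`, and for a positive proportion of ALL the tuples
  `(a, b)` of elements of `𝓞 K`, ordered by the maximum of the norms.
* The `7^k (2c+3 choose c)` events are asymptotically independent: for every set `𝒯` of pairs `(T, ε)`
  the proportion of the `(a, b)` for which the assertion holds for all the members of `𝒯` is `p ^ #𝒯`;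
  and this remains true under all the conditions on the classes of the coefficients modulo `3` and of
  their norms modulo `9`.

The `L`-function is given by the numbers of points: for a place `v` dividing neither `3` nor the
coefficients the multiset `W` of the pairs `(i, α)`, `α` an eigenvalue of the Frobenius on `H^i(X)`, is
determined by

  `#X(k') = ∑_{(i, α) ∈ W} (-1)^i α^r`,  `|α|² = q^i`,

for all the extensions `k'` of degree `r` of the residue field, with `q` elements.  At all the places not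
dividing `3` the part of `δ` is given by the reduction of `E_δ`: if `δ = R z³` with `R` prime to `v` then
`E_δ` is isomorphic to `E_R`, which has good reduction; otherwise (the order of `δ` at `v` is not
divisible by `3`) there are no invariants of inertia.  At the places dividing `3` none of the curves has
invariants of inertia.

Relation to the conjecture (not formalized): `S_l` is geometrically rational, so that its motive is
`1 ⊕ 𝕃 ⊗ A_l ⊕ 𝕃²` with an Artin motive `A_l`, and the motive of `X_a` is the sum of powers of `𝕃` and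
of `h^1(J)(-c)`, `J` the intermediate Jacobian (Murre, Bloch and Murre, Bloch and Srinivas; Collino,
Paranjape for fivefolds).  So the group of the homologically trivial cycles of codimension `i + 1` on
`X`, tensored with `ℚ`, is the direct sum of the `E_δ(K) ⊗ ℚ` for the same `δ` as in `H^{2i+1}(X)`, and
for these `(a, b)` we have `rank CH^m(X)_hom = ord_{s = m} L(H^{2 m - 1}(X), s)` (both are zero) for all
`m`.

The case `k = 0` is `SquarefreeDiagonalCubics`.
-/

set_option autoImplicit false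

namespace Pool.Agent.Results.MP_b8021b_nt.ProductsWithCubicSurfaces

open NumberField IsDedekindDomain WeierstrassCurve
open Pool.Agent.TH841.NF.D (Sha)
open scoped Classical

/-- The curve `E_D : y² + D y = x³`. -/
def curve {F : Type} [Field F] (D : F) : WeierstrassCurve F := ⟨0, 0, D, 0, 0⟩

/-- The solutions, not all zero, of `∑ a i x i ^ 3 = 0` in the field `F`. -/
def solutions {m : ℕ} {F : Type} [Field F] (a : Fin m → F) : Set (Fin m → F) :=
  {x | x ≠ 0 ∧ ∑ i, a i * x i ^ 3 = 0}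

/-- Two of the four variables of a surface. -/
abbrev Pair : Type := {S : Finset (Fin 4) // S.card = 2}

/-- The parts of the cohomology of a diagonal cubic surface: `Sum.inl j` is the class of `1`, of a plane
section and of a point, for `j = 0`, `1`, `2`, and `Sum.inr S` is the character of order `3` attached to
`S` in `H²`. -/
abbrev Part : Type := Fin 3 ⊕ Pair

/-- Half the degree of the part. -/
def halfDegree : Part → ℕ
  | Sum.inl j => j
  | Sum.inr _ => 1

/-- The character of the part. -/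
def character : Part → Option Pair := Sum.elim (fun _ => none) some

variable {K : Type} [Field K] [NumberField K] {c k : ℕ}

/-- `δ_T = ∏ a i * ∏_{i ∈ T} a i` -/
def delta {m : ℕ} (a : Fin m → 𝓞 K) (T : Finset (Fin m)) : 𝓞 K := (∏ i, a i) * ∏ i ∈ T, a i

/-- The twist attached to a character: `1`, or `ε_S = ∏ b i * ∏_{i ∈ S} b i`. -/
def epsilon (b : Fin 4 → 𝓞 K) : Option Pair → 𝓞 K
  | none => 1
  | some S => delta b S.1

/-- `δ = δ_T ∏_l ε_l` -/
def twist (a : Fin (2 * c + 3) → 𝓞 K) (b : Fin k → Fin 4 → 𝓞 K) (T : Finset (Fin (2 * c + 3)))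
    (o : Fin k → Option Pair) : 𝓞 K := delta a T * ∏ l, epsilon (b l) (o l)

/-- The parts of `H^{2i+1}(X)`: sets `T` of `c` indices and parts of the cohomology of the surfaces of
degrees `2 j_l` with `c + ∑ j_l = i`. -/
noncomputable def parts (c k i : ℕ) : Finset (Finset (Fin (2 * c + 3)) × (Fin k → Part)) :=
  Finset.univ.filter fun p => p.1.card = c ∧ c + ∑ l, halfDegree (p.2 l) = i

/-- `W` is the multiset of the pairs `(i, α)`, `α` an eigenvalue of the Frobenius at `v` on `H^i(X)`, for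
`X = X_a × S_1 × ... × S_k`: `|α|² = q^i`, `q = N(v)`, and for every extension `F` of degree `r` of the
residue field of `v` (`f` is the reduction), with `q'` elements, the product of the numbers of the
nonzero solutions of the `k + 1` equations in `F` is `(q' - 1)^(k+1) ∑_{(i, α) ∈ W} (-1)^i α^r`. -/
def IsFrobenius (a : Fin (2 * c + 3) → 𝓞 K) (b : Fin k → Fin 4 → 𝓞 K) (v : HeightOneSpectrum (𝓞 K))
    (W : Multiset (ℕ × ℂ)) : Prop :=
  (∀ x ∈ W, ‖x.2‖ ^ 2 = (Ideal.absNorm v.asIdeal : ℝ) ^ x.1) ∧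
  ∀ (F : Type) [Field F] [Finite F] (f : 𝓞 K →+* F) (r : ℕ), RingHom.ker f = v.asIdeal →
    Nat.card F = Ideal.absNorm v.asIdeal ^ r →
    ((solutions fun i => f (a i)).ncard : ℂ) * ∏ l, ((solutions fun i => f (b l i)).ncard : ℂ) =
      (Nat.card F - 1) ^ (k + 1) * (W.map fun x => (-1) ^ x.1 * x.2 ^ r).sum

/-- `L` is entire and equal to `L(H^{2i+1}(X / K), s)` for `Re s > (2 i + 1) / 2 + 1`,
`X = X_a × S_1 × ... × S_k`.  `A v T u` is the multiset of the eigenvalues of the Frobenius at `v` on the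
invariants of inertia of the part `(T, u)` of `H^{2i+1}(X)`.  At the places `v` dividing neither `3` nor
the coefficients all the `A v T u` together are the eigenvalues given by the numbers of points of `X`.  At
all the places `v` not dividing `3`: if the twist `δ` of the part is `R z³` with `R` prime to `v` then
`A v T u = {N(v)^i β, N(v)^i conj β}`, where `β conj β = N(v)` and `y² + R y = x³` has
`N(v) - (β + conj β)` affine points over the residue field; if there are no such `R` and `z` then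
`A v T u` is empty.  At the places dividing `3` all the `A v T u` are empty. -/
def IsLFunction (a : Fin (2 * c + 3) → 𝓞 K) (b : Fin k → Fin 4 → 𝓞 K) (i : ℕ) (L : ℂ → ℂ) : Prop :=
  Differentiable ℂ L ∧
  ∃ A : HeightOneSpectrum (𝓞 K) → Finset (Fin (2 * c + 3)) → (Fin k → Part) → Multiset ℂ,
    (∀ v, (3 : 𝓞 K) ∉ v.asIdeal → (∀ i, a i ∉ v.asIdeal) → (∀ l i, b l i ∉ v.asIdeal) →
      ∃ W, IsFrobenius a b v W ∧ ((W.filter fun x => x.1 = 2 * i + 1).map Prod.snd) =
        ∑ p ∈ parts c k i, A v p.1 p.2) ∧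
    (∀ v, ∀ p ∈ parts c k i, (3 : 𝓞 K) ∉ v.asIdeal → ∀ R z : 𝓞 K, R ∉ v.asIdeal →
      (twist a b p.1 fun l => character (p.2 l)) = R * z ^ 3 → ∃ β : ℂ,
        β * (starRingEnd ℂ) β = Ideal.absNorm v.asIdeal ∧
        (Nat.card {P : (𝓞 K ⧸ v.asIdeal) × (𝓞 K ⧸ v.asIdeal) //
          P.2 ^ 2 + Ideal.Quotient.mk v.asIdeal R * P.2 = P.1 ^ 3} : ℂ) =
            Ideal.absNorm v.asIdeal - (β + (starRingEnd ℂ) β) ∧
        A v p.1 p.2 = {(Ideal.absNorm v.asIdeal : ℂ) ^ i * β,
          (Ideal.absNorm v.asIdeal : ℂ) ^ i * (starRingEnd ℂ) β}) ∧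
    (∀ v, ∀ p ∈ parts c k i, ((3 : 𝓞 K) ∈ v.asIdeal ∨ ¬ ∃ R z : 𝓞 K, R ∉ v.asIdeal ∧
      (twist a b p.1 fun l => character (p.2 l)) = R * z ^ 3) → A v p.1 p.2 = 0) ∧
    ∀ s : ℂ, (2 * i + 1 : ℝ) / 2 + 1 < s.re →
      HasProd (fun v : HeightOneSpectrum (𝓞 K) =>
        ∏ p ∈ parts c k i, ((A v p.1 p.2).map
          (fun α => (1 - α * (Ideal.absNorm v.asIdeal : ℂ) ^ (-s))⁻¹)).prod) (L s)

/-- Squarefree and congruent to a third root of unity modulo `3`. -/
def Admissible (D : 𝓞 K) : Prop := Squarefree D ∧ ∃ ω : 𝓞 K, ω ^ 3 = 1 ∧ (3 : 𝓞 K) ∣ D - ω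

/-- The exceptional class: `D` is `1` modulo `3` and its norm is `1` modulo `9`. -/
def Exceptional (D : 𝓞 K) : Prop := (3 : 𝓞 K) ∣ D - 1 ∧ (9 : ℤ) ∣ Algebra.norm ℤ D - 1

/-- The coefficients are squarefree and congruent to third roots of unity modulo `3`, and no twist `δ` is
exceptional or a unit times a cube. -/
def InFamily (a : Fin (2 * c + 3) → 𝓞 K) (b : Fin k → Fin 4 → 𝓞 K) : Prop :=
  (∀ i, Admissible (a i)) ∧ (∀ l i, Admissible (b l i)) ∧
  ∀ T : Finset (Fin (2 * c + 3)), T.card = c → ∀ o : Fin k → Option Pair,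
    ¬ Exceptional (twist a b T o) ∧ ¬ ∃ u z : 𝓞 K, IsUnit u ∧ twist a b T o = u * z ^ 3

/-- `P a b` depends only on the coefficients modulo `3` and on their norms modulo `9`. -/
def IsClassCondition (P : (Fin (2 * c + 3) → 𝓞 K) → (Fin k → Fin 4 → 𝓞 K) → Prop) : Prop :=
  ∀ (a a' : Fin (2 * c + 3) → 𝓞 K) (b b' : Fin k → Fin 4 → 𝓞 K),
    (∀ i, (3 : 𝓞 K) ∣ a i - a' i ∧ (9 : ℤ) ∣ Algebra.norm ℤ (a i) - Algebra.norm ℤ (a' i)) →
    (∀ l i, (3 : 𝓞 K) ∣ b l i - b' l i ∧
      (9 : ℤ) ∣ Algebra.norm ℤ (b l i) - Algebra.norm ℤ (b' l i)) → P a b → P a' b'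

/-- `E_D(K)` is finite and the `3`-primary part of `Ш(E_D / K)` is trivial. -/
def FiniteAndTrivial (D : 𝓞 K) : Prop :=
  Finite (curve (D : K)).toAffine.Point ∧ ∀ (n : ℕ) (x : Sha (curve (D : K))), 3 ^ n • x = 0 → x = 0

/-- All the groups `E_δ(K)` are finite, and for all `i` the function `L(H^{2i+1}(X / K), s)` is entire and
not zero at `s = i + 1`. -/
def RankZero (a : Fin (2 * c + 3) → 𝓞 K) (b : Fin k → Fin 4 → 𝓞 K) : Prop :=
  (∀ T : Finset (Fin (2 * c + 3)), T.card = c → ∀ o : Fin k → Option Pair,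
    Finite (curve ((twist a b T o : 𝓞 K) : K)).toAffine.Point) ∧
  ∀ i : ℕ, ∃ L : ℂ → ℂ, IsLFunction a b i L ∧ L (i + 1) ≠ 0

/-- All the coefficients, of norms at most `X`. -/
def Tuples (K : Type) [Field K] [NumberField K] (c k X : ℕ) :
    Set ((Fin (2 * c + 3) → 𝓞 K) × (Fin k → Fin 4 → 𝓞 K)) :=
  {p | (∀ i, Algebra.norm ℤ (p.1 i) ≤ X) ∧ ∀ l i, Algebra.norm ℤ (p.2 l i) ≤ X}

theorem result (K : Type) [Field K] [NumberField K] [IsCyclotomicExtension {3} ℚ K]
    (c : ℕ) (hc : c ≤ 2) (k : ℕ) (_hk : 1 ≤ k) :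
    (∃ C : ℝ, 0 < C ∧ ∃ X₀ : ℕ, ∀ X : ℕ, X₀ ≤ X → C * ((Tuples K c k X).ncard : ℝ) ≤
      ({p | p ∈ Tuples K c k X ∧ InFamily p.1 p.2 ∧ RankZero p.1 p.2}.ncard : ℝ)) ∧
    (∀ 𝒯 : Finset (Finset (Fin (2 * c + 3)) × (Fin k → Option Pair)), (∀ u ∈ 𝒯, u.1.card = c) →
      ∀ P : (Fin (2 * c + 3) → 𝓞 K) → (Fin k → Fin 4 → 𝓞 K) → Prop, IsClassCondition P →
        (∃ a b, InFamily a b ∧ P a b) →
      Filter.Tendsto (fun X : ℕ =>
        ({p | p ∈ Tuples K c k X ∧ InFamily p.1 p.2 ∧ P p.1 p.2 ∧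
          ∀ u ∈ 𝒯, FiniteAndTrivial (twist p.1 p.2 u.1 u.2)}.ncard : ℝ) /
        ({p | p ∈ Tuples K c k X ∧ InFamily p.1 p.2 ∧ P p.1 p.2}.ncard : ℝ)) Filter.atTop
        (nhds ((∏' i : ℕ, (1 - (1 / 3 : ℝ) ^ (2 * i + 1))) ^ 𝒯.card))) ∧
    (0.639 : ℝ) < ∏' i : ℕ, (1 - (1 / 3 : ℝ) ^ (2 * i + 1)) ∧
    ∀ (a : Fin (2 * c + 3) → 𝓞 K) (b : Fin k → Fin 4 → 𝓞 K), InFamily a b →
      (∀ i : ℕ, ∃ L : ℂ → ℂ, IsLFunction a b i L) ∧
      ((∀ (T : Finset (Fin (2 * c + 3))) (o : Fin k → Option Pair), T.card = c →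
        FiniteAndTrivial (twist a b T o)) → RankZero a b) := by
  have e1 : ∀ (b : Fin 4 → 𝓞 K) (o : Option Pair), epsilon b o = Pool.Agent.J4H38.Pr.fo b o := by
    intro b o
    rcases o with _ | S
    · rfl
    · rfl
  have e2 : ∀ (a : Fin (2 * c + 3) → 𝓞 K) (b : Fin k → Fin 4 → 𝓞 K)
      (T : Finset (Fin (2 * c + 3))) (o : Fin k → Option Pair),
      Pool.Agent.J4H38.Pr.two a b T o = twist a b T o := by
    intro a b T o
    unfold twist Pool.Agent.J4H38.Pr.two
    simp only [e1]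
    rfl
  have e3 : ∀ (a : Fin (2 * c + 3) → 𝓞 K) (b : Fin k → Fin 4 → 𝓞 K)
      (T : Finset (Fin (2 * c + 3))) (u : Fin k → Part),
      Pool.Agent.J4H38.Pr.tws a b T u = twist a b T fun l => character (u l) := by
    intro a b T u
    rw [Pool.Agent.J4H38.Pr.tws_two, e2]
    rfl
  have e4 : ∀ x : Part, Pool.Agent.J4H38.Pr.dg x = halfDegree x := by
    intro x
    rcases x with _ | _
    · rfl
    · rfl
  have e5 : ∀ i, Pool.Agent.J4H38.Pr.pcs c k i = parts c k i := by
    intro i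
    ext p
    unfold parts
    rw [Pool.Agent.J4H38.Pr.mem_pcs, Finset.mem_filter]
    unfold Pool.Agent.J4H38.Pr.wt
    simp only [e4, Finset.mem_univ, true_and]
  have e6 : ∀ (a : Fin (2 * c + 3) → 𝓞 K) (b : Fin k → Fin 4 → 𝓞 K) (i : ℕ) (L : ℂ → ℂ),
      Pool.Agent.J4H38.Pr.IsLP a b i L → IsLFunction a b i L := by
    intro a b i L h
    unfold Pool.Agent.J4H38.Pr.IsLP at h
    simp only [e3, e5] at h
    exact h
  have e7 : ∀ (a : Fin (2 * c + 3) → 𝓞 K) (b : Fin k → Fin 4 → 𝓞 K),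
      Pool.Agent.J4H38.Pr.FamP a b ↔ InFamily a b := by
    intro a b
    unfold Pool.Agent.J4H38.Pr.FamP
    simp only [e2]
    exact Iff.rfl
  obtain ⟨h1, h2, h3, h0⟩ := Pool.Agent.J4H38.Pr.finalP K c hc k
  simp only [e2, e7] at h1 h2 h3
  have h4 : ∀ (a : Fin (2 * c + 3) → 𝓞 K) (b : Fin k → Fin 4 → 𝓞 K), InFamily a b →
      (∀ i : ℕ, ∃ L : ℂ → ℂ, IsLFunction a b i L) ∧
      ((∀ (T : Finset (Fin (2 * c + 3))) (o : Fin k → Option Pair), T.card = c →
        FiniteAndTrivial (twist a b T o)) → RankZero a b) := by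
    intro a b hab
    refine ⟨fun i => ?_, fun ht => ⟨fun T hT o => (ht T o hT).1, fun i => ?_⟩⟩
    · obtain ⟨L, hL, -⟩ := h3 a b hab i
      exact ⟨L, e6 a b i L hL⟩
    · obtain ⟨L, hL, hL'⟩ := h3 a b hab i
      exact ⟨L, e6 a b i L hL, hL' fun T hT o => ht T o hT⟩
  refine ⟨?_, h2, Pool.Agent.N883.FF.hc9.2.2.2.1, h4⟩
  obtain ⟨C, hC, X₀, h⟩ := h1
  refine ⟨C, hC, max X₀ 1, fun X hX => (h X ((le_max_left _ _).trans hX)).trans ?_⟩
  refine Nat.cast_le.2 (Set.ncard_le_ncard ?_ ((h0 X ((le_max_right _ _).trans hX)).subset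
    fun p hp => hp.1))
  rintro ⟨a, b⟩ ⟨k1, k2, k3⟩
  exact ⟨k1, k2, (h4 a b k2).2 fun T o hT => k3 T hT o⟩

end Pool.Agent.Results.MP_b8021b_nt.ProductsWithCubicSurfaces
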