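import Mathlib
import Pool.Agent.J4H38.Fin

/-!
# The rank part of the Beilinson–Bloch conjecture for a positive proportion of ALL the diagonal cubic
# threefolds and fivefolds over `K = ℚ(√-3)`

`K` is the field of the third roots of unity.  For `c = 0, 1, 2` and `a_0, ..., a_{2c+2} ∈ 𝓞 K` let `X_a`
be the smooth cubic hypersurface `a_0 x_0³ + … + a_{2c+2} x_{2c+2}³ = 0` of dimension `n = 2 c + 1` over
`K`; the `2 c + 3` coefficients are INDEPENDENT of each other.  For a set `T` of `c` indices put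
`δ_T = ∏ a i * ∏_{i ∈ T} a i`, and let `E_δ` be the curve `y² + δ y = x³`.  Then `H^n(X_a)` is the direct
sum of the `H^1(E_{δ_T})(-c)` (`1`, `5` and `21` curves for `n = 1, 3, 5`), and the intermediate Jacobian
of `X_a` is isogenous over `K` to the product of the `E_{δ_T}`.

The family: the `a_i` are squarefree, congruent to third roots of unity modulo `3` (up to the sign, which
is a cube, these are all the squarefree elements prime to `3`), no `δ_T` is a unit times a cube, and no
`δ_T` is in the exceptional class (`1` modulo `3`, with norm `1` modulo `9`; this is one of the nine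
classes of units modulo cubes and the last step of the filtration at `√-3`).

* The functions `L(H^n(X_a / K), s)` are entire for all `a` in the family.
* If for all the `T` the group `E_{δ_T}(K)` is finite and `Ш(E_{δ_T} / K)[3^∞] = 0`, then
  `L(H^n(X_a / K), (n + 1) / 2) ≠ 0`.
* This happens for the proportion `p ^ (2c+3 choose c)` of the members of the family, where
  `p = ∏_{i ≥ 0} (1 - 3^{-(2 i + 1)}) = 0.6390...`; that is for `p ^ 5 = 0.1065...` of the threefolds and
  for `p ^ 21` of the fivefolds of the family, and for a positive proportion of ALL the tuples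
  `(a_0, ..., a_{2c+2})` of elements of `𝓞 K`, ordered by the maximum of the norms.
* The `2c+3 choose c` events are asymptotically independent: for every set `𝒯` of sets `T` the
  proportion of the `a` for which the assertion holds for all the `T ∈ 𝒯` is `p ^ #𝒯`; and this remains
  true under all the conditions `P` on the classes of the `a_i` modulo `3` and of their norms modulo `9`.

The `L`-function is given by the numbers of points: for a place `v` dividing neither `3` nor the `a_i`
the eigenvalues `α` of the Frobenius on `H^n(X_a)` (`2`, `10` and `42` for `n = 1, 3, 5`) are determined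
by

  `#X_a(k') = 1 + q' + ... + q'^n - ∑ α^r`

for all the finite extensions `k'` of the residue field, `q' = #k'`, `r` the degree of `k'`.  At every
place not dividing `3`, the part of `T` is given by the reduction of `E_{δ_T}`: if `δ_T = R z³` with `R`
prime to `v` then `E_{δ_T}` is isomorphic to `E_R`, which has good reduction; otherwise (the order of
`δ_T` at `v` is not divisible by `3`) there are no invariants of inertia.  At the places dividing `3` none
of the curves has invariants of inertia.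

Relation to the conjecture (not formalized): the group of the homologically trivial cycles of
codimension `i` on `X_a`, tensored with `ℚ`, is `J(K) ⊗ ℚ = ⨁ E_{δ_T}(K) ⊗ ℚ` for `i = c + 1`, and `0` for
all the other `i` (Murre, Bloch and Murre, Bloch and Srinivas for threefolds; Collino, Paranjape for
fivefolds).  So, for these `a`, `rank CH^i(X_a)_hom = ord_{s = i} L(H^{2 i - 1}(X_a), s)` (both are zero)
for all `i`.

The one-parameter families with all the coefficients in the group generated by one `D` and the cubes are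
in `MajorityDiagonalCubics`; here the curves `E_{δ_T}` are independent of each other and the proof needs the joint
distribution of the kernels of several Laplacian matrices over `𝔽_3` built from the same cubic
residue symbols (`Pool/Agent/J4H38`: factorial moments of the joint kernel, boxes, large sieve).
-/

set_option autoImplicit false

namespace Pool.Agent.Results.MP_b8021b_nt.SquarefreeDiagonalCubics

open NumberField IsDedekindDomain WeierstrassCurve
open Pool.Agent.TH841.NF.D (Sha)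
open scoped Classical

/-- The curve `E_D : y² + D y = x³`. -/
def curve {F : Type} [Field F] (D : F) : WeierstrassCurve F := ⟨0, 0, D, 0, 0⟩

/-- The solutions, not all zero, of `∑ a i x i ^ 3 = 0` in the field `F`. -/
def solutions {m : ℕ} {F : Type} [Field F] (a : Fin m → F) : Set (Fin m → F) :=
  {x | x ≠ 0 ∧ ∑ i, a i * x i ^ 3 = 0}

variable {K : Type} [Field K] [NumberField K]

/-- `δ_T = ∏ a i * ∏_{i ∈ T} a i` -/
def delta {m : ℕ} (a : Fin m → 𝓞 K) (T : Finset (Fin m)) : 𝓞 K := (∏ i, a i) * ∏ i ∈ T, a i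

/-- `A` is the multiset of the eigenvalues of the Frobenius at `v` on `H^n(X_a)`, for the hypersurface
`X_a : ∑ a i x i ^ 3 = 0` of dimension `n = 2 c + 1`: for every extension `F` of degree `r` of the residue
field of `v` (`f` is the reduction), with `q'` elements, the equation has
`(q' - 1) (1 + q' + ... + q'^n - ∑ α^r)` nonzero solutions in `F`. -/
def IsFrobenius {c : ℕ} (a : Fin (2 * c + 3) → 𝓞 K) (v : HeightOneSpectrum (𝓞 K))
    (A : Multiset ℂ) : Prop :=
  ∀ (F : Type) [Field F] [Finite F] (f : 𝓞 K →+* F) (r : ℕ), RingHom.ker f = v.asIdeal →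
    Nat.card F = Ideal.absNorm v.asIdeal ^ r →
    ((solutions fun i => f (a i)).ncard : ℂ) = (Nat.card F - 1) *
      (∑ i ∈ Finset.range (2 * c + 2), (Nat.card F : ℂ) ^ i - (A.map (fun α => α ^ r)).sum)

/-- `L` is entire and equal to `L(H^n(X_a / K), s)` for `Re s > n / 2 + 1`, for the hypersurface
`X_a : ∑ a i x i ^ 3 = 0` of dimension `n = 2 c + 1`.  `A v T` is the multiset of the eigenvalues of the
Frobenius at `v` on the invariants of inertia of the part `H^1(E_{δ_T})(-c)` of `H^n(X_a)`.  At the places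
`v` dividing neither `3` nor the `a i` all the `A v T` together are the eigenvalues given by the numbers
of points of `X_a`.  At all the places `v` not dividing `3`: if `δ_T = R z³` with `R` prime to `v` then
`A v T = {N(v)^c β, N(v)^c conj β}`, where `β conj β = N(v)` and `y² + R y = x³` has
`N(v) - (β + conj β)` affine points over the residue field; if there are no such `R` and `z` then `A v T`
is empty.  At the places dividing `3` all the `A v T` are empty. -/
def IsLFunction {c : ℕ} (a : Fin (2 * c + 3) → 𝓞 K) (L : ℂ → ℂ) : Prop :=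
  Differentiable ℂ L ∧
  ∃ A : HeightOneSpectrum (𝓞 K) → Finset (Fin (2 * c + 3)) → Multiset ℂ,
    (∀ v, (3 : 𝓞 K) ∉ v.asIdeal → (∀ i, a i ∉ v.asIdeal) →
      IsFrobenius a v (∑ T ∈ (Finset.univ : Finset (Fin (2 * c + 3))).powersetCard c, A v T)) ∧
    (∀ v T, (3 : 𝓞 K) ∉ v.asIdeal → T.card = c → ∀ R z : 𝓞 K, R ∉ v.asIdeal →
      delta a T = R * z ^ 3 → ∃ β : ℂ,
        β * (starRingEnd ℂ) β = Ideal.absNorm v.asIdeal ∧
        (Nat.card {P : (𝓞 K ⧸ v.asIdeal) × (𝓞 K ⧸ v.asIdeal) //
          P.2 ^ 2 + Ideal.Quotient.mk v.asIdeal R * P.2 = P.1 ^ 3} : ℂ) =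
            Ideal.absNorm v.asIdeal - (β + (starRingEnd ℂ) β) ∧
        A v T = {(Ideal.absNorm v.asIdeal : ℂ) ^ c * β,
          (Ideal.absNorm v.asIdeal : ℂ) ^ c * (starRingEnd ℂ) β}) ∧
    (∀ v T, T.card = c → ((3 : 𝓞 K) ∈ v.asIdeal ∨
      ¬ ∃ R z : 𝓞 K, R ∉ v.asIdeal ∧ delta a T = R * z ^ 3) → A v T = 0) ∧
    ∀ s : ℂ, (2 * c + 1 : ℝ) / 2 + 1 < s.re →
      HasProd (fun v : HeightOneSpectrum (𝓞 K) =>
        ∏ T ∈ (Finset.univ : Finset (Fin (2 * c + 3))).powersetCard c, ((A v T).map
          (fun α => (1 - α * (Ideal.absNorm v.asIdeal : ℂ) ^ (-s))⁻¹)).prod) (L s)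

/-- The exceptional class: `D` is `1` modulo `3` and its norm is `1` modulo `9`. -/
def Exceptional (D : 𝓞 K) : Prop := (3 : 𝓞 K) ∣ D - 1 ∧ (9 : ℤ) ∣ Algebra.norm ℤ D - 1

/-- The coefficients `a i` are squarefree and congruent to third roots of unity modulo `3`, and no
`δ_T`, `T` a set of `c` indices, is exceptional or a unit times a cube. -/
def InFamily {c : ℕ} (a : Fin (2 * c + 3) → 𝓞 K) : Prop :=
  (∀ i, Squarefree (a i) ∧ ∃ ω : 𝓞 K, ω ^ 3 = 1 ∧ (3 : 𝓞 K) ∣ a i - ω) ∧
  ∀ T : Finset (Fin (2 * c + 3)), T.card = c → ¬ Exceptional (delta a T) ∧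
    ¬ ∃ u z : 𝓞 K, IsUnit u ∧ delta a T = u * z ^ 3

/-- `P a` depends only on the `a i` modulo `3` and on their norms modulo `9`. -/
def IsClassCondition {c : ℕ} (P : (Fin (2 * c + 3) → 𝓞 K) → Prop) : Prop :=
  ∀ a b : Fin (2 * c + 3) → 𝓞 K, (∀ i, (3 : 𝓞 K) ∣ a i - b i ∧
    (9 : ℤ) ∣ Algebra.norm ℤ (a i) - Algebra.norm ℤ (b i)) → P a → P b

/-- `E_D(K)` is finite and the `3`-primary part of `Ш(E_D / K)` is trivial. -/
def FiniteAndTrivial (D : 𝓞 K) : Prop :=
  Finite (curve (D : K)).toAffine.Point ∧ ∀ (n : ℕ) (x : Sha (curve (D : K))), 3 ^ n • x = 0 → x = 0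

/-- All the groups `E_{δ_T}(K)`, `T` a set of `c` indices, are finite, and `L(H^n(X_a / K), s)` is entire
and not zero at `s = (n + 1) / 2`, `n = 2 c + 1`. -/
def RankZero {c : ℕ} (a : Fin (2 * c + 3) → 𝓞 K) : Prop :=
  (∀ T : Finset (Fin (2 * c + 3)), T.card = c →
    Finite (curve ((delta a T : 𝓞 K) : K)).toAffine.Point) ∧
  ∃ L : ℂ → ℂ, IsLFunction a L ∧ L (c + 1) ≠ 0

theorem result (K : Type) [Field K] [NumberField K] [IsCyclotomicExtension {3} ℚ K]
    (c : ℕ) (hc : c ≤ 2) :
    (∃ C : ℝ, 0 < C ∧ ∃ X₀ : ℕ, ∀ X : ℕ, X₀ ≤ X →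
      C * ({a : Fin (2 * c + 3) → 𝓞 K | ∀ i, Algebra.norm ℤ (a i) ≤ X}.ncard : ℝ) ≤
        ({a : Fin (2 * c + 3) → 𝓞 K | (∀ i, Algebra.norm ℤ (a i) ≤ X) ∧ InFamily a ∧
          RankZero a}.ncard : ℝ)) ∧
    (∀ 𝒯 : Finset (Finset (Fin (2 * c + 3))), (∀ T ∈ 𝒯, T.card = c) →
      ∀ P : (Fin (2 * c + 3) → 𝓞 K) → Prop, IsClassCondition P → (∃ a, InFamily a ∧ P a) →
      Filter.Tendsto (fun X : ℕ =>
        ({a : Fin (2 * c + 3) → 𝓞 K | (∀ i, Algebra.norm ℤ (a i) ≤ X) ∧ InFamily a ∧ P a ∧
          ∀ T ∈ 𝒯, FiniteAndTrivial (delta a T)}.ncard : ℝ) /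
        ({a : Fin (2 * c + 3) → 𝓞 K | (∀ i, Algebra.norm ℤ (a i) ≤ X) ∧ InFamily a ∧
          P a}.ncard : ℝ)) Filter.atTop
        (nhds ((∏' i : ℕ, (1 - (1 / 3 : ℝ) ^ (2 * i + 1))) ^ 𝒯.card))) ∧
    (0.639 : ℝ) < ∏' i : ℕ, (1 - (1 / 3 : ℝ) ^ (2 * i + 1)) ∧
    ∀ a : Fin (2 * c + 3) → 𝓞 K, InFamily a → (∃ L : ℂ → ℂ, IsLFunction a L) ∧
      ((∀ T : Finset (Fin (2 * c + 3)), T.card = c → FiniteAndTrivial (delta a T)) →
        RankZero a) := by
  obtain ⟨h1, h2, h3⟩ := Pool.Agent.J4H38.Fin.final K c hc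
  have h4 : ∀ a : Fin (2 * c + 3) → 𝓞 K, InFamily a → (∃ L : ℂ → ℂ, IsLFunction a L) ∧
      ((∀ T : Finset (Fin (2 * c + 3)), T.card = c → FiniteAndTrivial (delta a T)) →
        RankZero a) := by
    intro a ha
    obtain ⟨L, hL, hL'⟩ := h3 a ha
    exact ⟨⟨L, hL⟩, fun ht => ⟨fun T hT => (ht T hT).1, L, hL, hL' ht⟩⟩
  refine ⟨?_, h2, Pool.Agent.N883.FF.hc9.2.2.2.1, h4⟩
  obtain ⟨⟨j, hj⟩, -⟩ := Pool.Agent.Y455.CTK.jex K
  obtain ⟨C, hC, X₀, h⟩ := h1
  refine ⟨C, hC, max X₀ 1, fun X hX => (h X ((le_max_left _ _).trans hX)).trans ?_⟩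
  have hfin := (Pool.Agent.J4H38.Cnt.count_all (K := K) (N := 2 * c + 3) j hj X
    ((le_max_right _ _).trans hX)).1
  have hsub : {a : Fin (2 * c + 3) → 𝓞 K | (∀ i, Algebra.norm ℤ (a i) ≤ X) ∧
      Pool.Agent.J4H38.Fin.Fam a ∧
      ∀ T : Finset (Fin (2 * c + 3)), T.card = c →
        Pool.Agent.Y696.CTK.Tri (Pool.Agent.N883.DQ.Dt a T)} ⊆
      {a : Fin (2 * c + 3) → 𝓞 K | (∀ i, Algebra.norm ℤ (a i) ≤ X) ∧ InFamily a ∧
        RankZero a} :=
    fun a ha => ⟨ha.1, ha.2.1, (h4 a ha.2.1).2 ha.2.2⟩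
  exact_mod_cast Set.ncard_le_ncard hsub (hfin.subset fun a ha => ha.1)

end Pool.Agent.Results.MP_b8021b_nt.SquarefreeDiagonalCubics
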