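import Mathlib
import Pool.Agent.J4H38.M.Tw3

/-!
# The rank part of the Beilinson–Bloch conjecture for the cubic twists of ONE arbitrary diagonal cubic
# hypersurface over `K = ℚ(√-3)`

`K` is the field of the third roots of unity.  Let `c = 0, 1, 2`, let `a_0, ..., a_{2c+2} ∈ 𝓞 K` be
ARBITRARY FIXED coefficients prime to `3` (normalised by the sign, which is a cube: congruent to third
roots of unity modulo `3`; they need not be squarefree), and let `X` be the smooth cubic hypersurface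
`a_0 x_0³ + … + a_{2c+2} x_{2c+2}³ = 0` of dimension `n = 2 c + 1`.  For exponents `e_i` and `D ∈ 𝓞 K` the
hypersurface

  `X_D : a_0 D^{e_0} x_0³ + … + a_{2c+2} D^{e_{2c+2}} x_{2c+2}³ = 0`

is the twist of `X` by the cubic extension `K(∛D)` and the automorphism `(x_i) ↦ (ζ^{e_i} x_i)` of order
`3`; for instance `X_D : a_0 D x_0³ + a_1 x_1³ + … = 0`.  For a set `T` of `c` indices put
`δ_T = ∏ a_i D^{e_i} * ∏_{i ∈ T} a_i D^{e_i}`, and let `E_δ` be the curve `y² + δ y = x³`.  Then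
`H^n(X_D)` is the direct sum of the `H^1(E_{δ_T})(-c)` (`1`, `5`, `21` curves for `n = 1, 3, 5`) and the
intermediate Jacobian of `X_D` is isogenous over `K` to the product of the `E_{δ_T}`.  The exponent of `D`
in `δ_T` is assumed to be prime to `3` for all `T` (so all the curves are twisted); this is the case for
`e = (1, 0, ..., 0)`.

The family: the squarefree `D`, congruent to third roots of unity modulo `3`, such that no `δ_T` is a
unit times a cube or in the exceptional class (`1` modulo `3`, with norm `1` modulo `9`).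

* The functions `L(H^n(X_D / K), s)` are entire for all the `D` in the family, and if all the groups
  `E_{δ_T}(K)` are finite and all the `Ш(E_{δ_T} / K)[3^∞]` are trivial then
  `L(H^n(X_D / K), (n + 1) / 2) ≠ 0`.
* EXACT PROPORTIONS.  Call `T` and `T'` equivalent if `δ_T δ_{T'}` or `δ_T δ_{T'}²` is identically (in
  `D`) a cube.  For every set `𝒮` of sets `T` the proportion of the `D` in the family such that
  `E_{δ_T}(K)` is finite and `Ш(E_{δ_T} / K)[3^∞] = 0` for all the `T ∈ 𝒮` is `p ^ r`, where `r` is the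
  number of the equivalence classes of `𝒮` and `p = ∏_{i ≥ 0} (1 - 3^{-(2 i + 1)}) = 0.6390...`; the same
  holds under every condition `P` on the class of `D` modulo `3` and of its norm modulo `9`.  So the
  correlations between the twists `E_{A D}`, `E_{A' D}` of a FIXED finite set of curves by the same `D`
  are only the obvious ones.
* For EVERY diagonal cubic curve and threefold (`c ≤ 1`) and every such type of twist, a positive
  proportion of ALL `D ∈ 𝓞 K` (ordered by the norm) is in the family with all the groups `E_{δ_T}(K)`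
  finite and `L(H^n(X_D / K), (n + 1) / 2) ≠ 0`; in the family the proportion is at least
  `p ^ 5 = 0.1065...` for the threefolds.  For `c = 2` this holds whenever the family is not empty: this is
  a condition on the classes of the `a_i` modulo `3` and of their norms modulo `9` (each class of
  equivalent `T` excludes one of the nine classes of `D`), satisfied for instance if all the `a_i` are `1`
  modulo `9`, and always satisfied if there are at most `8` classes of equivalent `T`, as for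
  `a_0 D x_0³ + x_1³ + … + x_6³ = 0` (one class) or `a_0 x_0³ + D x_1³ + x_2³ + … + x_6³ = 0` (two classes).

Relation to the conjecture (not formalized): the group of the homologically trivial cycles of
codimension `i` on `X_D`, tensored with `ℚ`, is `J(K) ⊗ ℚ = ⨁ E_{δ_T}(K) ⊗ ℚ` for `i = c + 1`, and `0` for
all the other `i` (Murre, Bloch and Murre, Bloch and Srinivas for threefolds; Collino, Paranjape for
fivefolds).  So, for these `D`, `rank CH^i(X_D)_hom = ord_{s = i} L(H^{2 i - 1}(X_D), s)` (both are zero)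
for all `i`.

In `SquarefreeDiagonalCubics` the coefficients are squarefree and vary independently of each other; in
`MajorityDiagonalCubics` they are powers of one `D` (all the `T` are equivalent).  Here the hypersurface is
given and only ONE parameter varies, so that the matrices of the cubic residue symbols of all the
`E_{δ_T}` are built from the SAME primes with the same weights and differ only by the symbols at the fixed
primes and by the diagonal (`Pool/Agent/J4H38/M`).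
-/

set_option autoImplicit false

namespace Pool.Agent.Results.MP_b8021b_nt.TwistFamiliesOfDiagonalCubics

open NumberField IsDedekindDomain WeierstrassCurve
open Pool.Agent.TH841.NF.D (Sha)
open scoped Classical

/-- The curve `E_D : y² + D y = x³`. -/
def curve {F : Type} [Field F] (D : F) : WeierstrassCurve F := ⟨0, 0, D, 0, 0⟩

/-- The solutions, not all zero, of `∑ a i x i ^ 3 = 0` in the field `F`. -/
def solutions {m : ℕ} {F : Type} [Field F] (a : Fin m → F) : Set (Fin m → F) :=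
  {x | x ≠ 0 ∧ ∑ i, a i * x i ^ 3 = 0}

variable {K : Type} [Field K] [NumberField K]

/-- `δ_T = ∏ a i * ∏_{i ∈ T} a i` -/
def delta {m : ℕ} (a : Fin m → 𝓞 K) (T : Finset (Fin m)) : 𝓞 K := (∏ i, a i) * ∏ i ∈ T, a i

/-- `A` is the multiset of the eigenvalues of the Frobenius at `v` on `H^n(X_a)`, for the hypersurface
`X_a : ∑ a i x i ^ 3 = 0` of dimension `n = 2 c + 1`: for every extension `F` of degree `r` of the residue
field of `v` (`f` is the reduction), with `q'` elements, the equation has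
`(q' - 1) (1 + q' + ... + q'^n - ∑ α^r)` nonzero solutions in `F`. -/
def IsFrobenius {c : ℕ} (a : Fin (2 * c + 3) → 𝓞 K) (v : HeightOneSpectrum (𝓞 K))
    (A : Multiset ℂ) : Prop :=
  ∀ (F : Type) [Field F] [Finite F] (f : 𝓞 K →+* F) (r : ℕ), RingHom.ker f = v.asIdeal →
    Nat.card F = Ideal.absNorm v.asIdeal ^ r →
    ((solutions fun i => f (a i)).ncard : ℂ) = (Nat.card F - 1) *
      (∑ i ∈ Finset.range (2 * c + 2), (Nat.card F : ℂ) ^ i - (A.map (fun α => α ^ r)).sum)

/-- `L` is entire and equal to `L(H^n(X_a / K), s)` for `Re s > n / 2 + 1`, for the hypersurface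
`X_a : ∑ a i x i ^ 3 = 0` of dimension `n = 2 c + 1`.  `A v T` is the multiset of the eigenvalues of the
Frobenius at `v` on the invariants of inertia of the part `H^1(E_{δ_T})(-c)` of `H^n(X_a)`.  At the places
`v` dividing neither `3` nor the `a i` all the `A v T` together are the eigenvalues given by the numbers
of points of `X_a`.  At all the places `v` not dividing `3`: if `δ_T = R z³` with `R` prime to `v` then
`A v T = {N(v)^c β, N(v)^c conj β}`, where `β conj β = N(v)` and `y² + R y = x³` has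
`N(v) - (β + conj β)` affine points over the residue field; if there are no such `R` and `z` then `A v T`
is empty.  At the places dividing `3` all the `A v T` are empty. -/
def IsLFunction {c : ℕ} (a : Fin (2 * c + 3) → 𝓞 K) (L : ℂ → ℂ) : Prop :=
  Differentiable ℂ L ∧
  ∃ A : HeightOneSpectrum (𝓞 K) → Finset (Fin (2 * c + 3)) → Multiset ℂ,
    (∀ v, (3 : 𝓞 K) ∉ v.asIdeal → (∀ i, a i ∉ v.asIdeal) →
      IsFrobenius a v (∑ T ∈ (Finset.univ : Finset (Fin (2 * c + 3))).powersetCard c, A v T)) ∧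
    (∀ v T, (3 : 𝓞 K) ∉ v.asIdeal → T.card = c → ∀ R z : 𝓞 K, R ∉ v.asIdeal →
      delta a T = R * z ^ 3 → ∃ β : ℂ,
        β * (starRingEnd ℂ) β = Ideal.absNorm v.asIdeal ∧
        (Nat.card {P : (𝓞 K ⧸ v.asIdeal) × (𝓞 K ⧸ v.asIdeal) //
          P.2 ^ 2 + Ideal.Quotient.mk v.asIdeal R * P.2 = P.1 ^ 3} : ℂ) =
            Ideal.absNorm v.asIdeal - (β + (starRingEnd ℂ) β) ∧
        A v T = {(Ideal.absNorm v.asIdeal : ℂ) ^ c * β,
          (Ideal.absNorm v.asIdeal : ℂ) ^ c * (starRingEnd ℂ) β}) ∧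
    (∀ v T, T.card = c → ((3 : 𝓞 K) ∈ v.asIdeal ∨
      ¬ ∃ R z : 𝓞 K, R ∉ v.asIdeal ∧ delta a T = R * z ^ 3) → A v T = 0) ∧
    ∀ s : ℂ, (2 * c + 1 : ℝ) / 2 + 1 < s.re →
      HasProd (fun v : HeightOneSpectrum (𝓞 K) =>
        ∏ T ∈ (Finset.univ : Finset (Fin (2 * c + 3))).powersetCard c, ((A v T).map
          (fun α => (1 - α * (Ideal.absNorm v.asIdeal : ℂ) ^ (-s))⁻¹)).prod) (L s)

/-- The exceptional class: `D` is `1` modulo `3` and its norm is `1` modulo `9`. -/
def Exceptional (D : 𝓞 K) : Prop := (3 : 𝓞 K) ∣ D - 1 ∧ (9 : ℤ) ∣ Algebra.norm ℤ D - 1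

/-- The coefficients `a i D^{e i}` of the twist `X_D`. -/
def twist {m : ℕ} (a : Fin m → 𝓞 K) (e : Fin m → ℕ) (D : 𝓞 K) (i : Fin m) : 𝓞 K := a i * D ^ e i

/-- The exponent of `D` in `δ_T` for `X_D`. -/
def exponent {m : ℕ} (e : Fin m → ℕ) (T : Finset (Fin m)) : ℕ := (∑ i, e i) + ∑ i ∈ T, e i

/-- `δ_T δ_{T'}^s` is identically a cube for `X_D`, `s = 1` or `s = 2`. -/
def Equivalent {m : ℕ} (a : Fin m → 𝓞 K) (e : Fin m → ℕ) (T T' : Finset (Fin m)) : Prop :=
  ∃ s : ℕ, (s = 1 ∨ s = 2) ∧ 3 ∣ exponent e T + s * exponent e T' ∧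
    ∃ z : 𝓞 K, delta a T * delta a T' ^ s = z ^ 3

/-- `D` is squarefree and congruent to a third root of unity modulo `3`, and no `δ_T` of `X_D`, `T` a set
of `c` indices, is exceptional or a unit times a cube. -/
def InFamily {c : ℕ} (a : Fin (2 * c + 3) → 𝓞 K) (e : Fin (2 * c + 3) → ℕ) (D : 𝓞 K) : Prop :=
  (Squarefree D ∧ ∃ ω : 𝓞 K, ω ^ 3 = 1 ∧ (3 : 𝓞 K) ∣ D - ω) ∧
  ∀ T : Finset (Fin (2 * c + 3)), T.card = c → ¬ Exceptional (delta (twist a e D) T) ∧
    ¬ ∃ u z : 𝓞 K, IsUnit u ∧ delta (twist a e D) T = u * z ^ 3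

/-- `P D` depends only on `D` modulo `3` and on its norm modulo `9`. -/
def IsClassCondition (P : 𝓞 K → Prop) : Prop :=
  ∀ D D' : 𝓞 K, (3 : 𝓞 K) ∣ D - D' ∧ (9 : ℤ) ∣ Algebra.norm ℤ D - Algebra.norm ℤ D' → P D → P D'

/-- `E_D(K)` is finite and the `3`-primary part of `Ш(E_D / K)` is trivial. -/
def FiniteAndTrivial (D : 𝓞 K) : Prop :=
  Finite (curve (D : K)).toAffine.Point ∧ ∀ (n : ℕ) (x : Sha (curve (D : K))), 3 ^ n • x = 0 → x = 0

/-- All the groups `E_{δ_T}(K)`, `T` a set of `c` indices, are finite, and `L(H^n(X_a / K), s)` is entire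
and not zero at `s = (n + 1) / 2`, `n = 2 c + 1`. -/
def RankZero {c : ℕ} (a : Fin (2 * c + 3) → 𝓞 K) : Prop :=
  (∀ T : Finset (Fin (2 * c + 3)), T.card = c →
    Finite (curve ((delta a T : 𝓞 K) : K)).toAffine.Point) ∧
  ∃ L : ℂ → ℂ, IsLFunction a L ∧ L (c + 1) ≠ 0

theorem result (K : Type) [Field K] [NumberField K] [IsCyclotomicExtension {3} ℚ K]
    (c : ℕ) (hc : c ≤ 2) (a : Fin (2 * c + 3) → 𝓞 K)
    (ha : ∀ i, ∃ ω : 𝓞 K, ω ^ 3 = 1 ∧ (3 : 𝓞 K) ∣ a i - ω)
    (e : Fin (2 * c + 3) → ℕ)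
    (he : ∀ T : Finset (Fin (2 * c + 3)), T.card = c → ¬ 3 ∣ exponent e T) :
    (c ≤ 1 ∨ (∃ D, InFamily a e D) → ∃ C : ℝ, 0 < C ∧ ∃ X₀ : ℕ, ∀ X : ℕ, X₀ ≤ X →
      C * ({D : 𝓞 K | Algebra.norm ℤ D ≤ X}.ncard : ℝ) ≤
        ({D : 𝓞 K | Algebra.norm ℤ D ≤ X ∧ InFamily a e D ∧
          RankZero (twist a e D)}.ncard : ℝ)) ∧
    (∀ 𝒯 : Finset (Finset (Fin (2 * c + 3))), 𝒯.card ≤ 8 →
      (∀ T, T.card = c → ∃ T' ∈ 𝒯, T'.card = c ∧ Equivalent a e T T') → ∃ D, InFamily a e D) ∧
    (∀ 𝒮 𝒯 : Finset (Finset (Fin (2 * c + 3))), (∀ T ∈ 𝒮, T.card = c) → 𝒯 ⊆ 𝒮 →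
      (∀ T ∈ 𝒯, ∀ T' ∈ 𝒯, T ≠ T' → ¬ Equivalent a e T T') →
      (∀ T ∈ 𝒮, ∃ T' ∈ 𝒯, Equivalent a e T T') →
      ∀ P : 𝓞 K → Prop, IsClassCondition P → (∃ D, InFamily a e D ∧ P D) →
      Filter.Tendsto (fun X : ℕ =>
        ({D : 𝓞 K | Algebra.norm ℤ D ≤ X ∧ InFamily a e D ∧ P D ∧
          ∀ T ∈ 𝒮, FiniteAndTrivial (delta (twist a e D) T)}.ncard : ℝ) /
        ({D : 𝓞 K | Algebra.norm ℤ D ≤ X ∧ InFamily a e D ∧ P D}.ncard : ℝ)) Filter.atTop
        (nhds ((∏' i : ℕ, (1 - (1 / 3 : ℝ) ^ (2 * i + 1))) ^ 𝒯.card))) ∧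
    (0.639 : ℝ) < ∏' i : ℕ, (1 - (1 / 3 : ℝ) ^ (2 * i + 1)) ∧
    ∀ D : 𝓞 K, InFamily a e D → (∃ L : ℂ → ℂ, IsLFunction (twist a e D) L) ∧
      ((∀ T : Finset (Fin (2 * c + 3)), T.card = c → FiniteAndTrivial (delta (twist a e D) T)) →
        RankZero (twist a e D)) := by
  obtain ⟨h1, h2, h3, h4, h5⟩ := Pool.Agent.J4H38.M.finalT K c hc a ha e he
  have h6 : ∀ D : 𝓞 K, InFamily a e D → (∃ L : ℂ → ℂ, IsLFunction (twist a e D) L) ∧
      ((∀ T : Finset (Fin (2 * c + 3)), T.card = c → FiniteAndTrivial (delta (twist a e D) T)) →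
        RankZero (twist a e D)) := by
    intro D hD
    obtain ⟨L, hL, hL'⟩ := h4 D hD
    exact ⟨⟨L, hL⟩, fun ht => ⟨fun T hT => (ht T hT).1, L, hL, hL' ht⟩⟩
  obtain ⟨⟨j, hj⟩, -⟩ := Pool.Agent.Y455.CTK.jex K
  obtain ⟨M, κf, R, f, hR, hf⟩ := Pool.Agent.J4H38.M.exists_mono j ha
  refine ⟨fun hcn => ?_, fun 𝒯 h8 hcov => Pool.Agent.J4H38.M.ne_cls j hj hf hR he h8 hcov, h1,
    Pool.Agent.N883.FF.hc9.2.2.2.1, h6⟩
  have hne : ∃ D, InFamily a e D := hcn.elim h3 id
  obtain ⟨C, hC, X₀, h⟩ := h2 hne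
  refine ⟨C, hC, max X₀ 1, fun X hX => (h X ((le_max_left _ _).trans hX)).trans ?_⟩
  have hfin := h5 X ((le_max_right _ _).trans hX)
  have hsub : {D : 𝓞 K | Algebra.norm ℤ D ≤ X ∧ Pool.Agent.J4H38.M.FamT a e D ∧
      ∀ T : Finset (Fin (2 * c + 3)), T.card = c →
        Pool.Agent.Y696.CTK.Tri (Pool.Agent.N883.DQ.Dt (Pool.Agent.J4H38.M.tw a e D) T)} ⊆
      {D : 𝓞 K | Algebra.norm ℤ D ≤ X ∧ InFamily a e D ∧ RankZero (twist a e D)} :=
    fun D hD => ⟨hD.1, hD.2.1, (h6 D hD.2.1).2 hD.2.2⟩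
  exact_mod_cast Set.ncard_le_ncard hsub (hfin.subset fun D hD => hD.1)

end Pool.Agent.Results.MP_b8021b_nt.TwistFamiliesOfDiagonalCubics
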